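import Mathlib

set_option autoImplicit false

namespace Pool.Agent.Results.MP_193372_co.Exact

/-- `(l, v, r)` is a veto interval representation of `G`: vertex `a` gets the interval `[l a, r a]`
with veto mark `v a`, distinct vertices get distinct veto intervals, and adjacency is given by the
veto rule. -/
def IsRep {V : Type} (G : SimpleGraph V) (l v r : V → ℝ) : Prop :=
  (∀ a, l a < v a ∧ v a < r a) ∧ Function.Injective (fun a => (l a, v a, r a)) ∧
    ∀ a b, a ≠ b → (G.Adj a b ↔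
      (v a < l b ∧ l b < r a ∧ r a < v b) ∨ (v b < l a ∧ l a < r b ∧ r b < v a))

/-- all intervals have the same length -/
def IsUnitRep {V : Type} (l r : V → ℝ) : Prop := ∀ a b, r a - l a = r b - l b

/-- no interval properly contains another -/
def IsProperRep {V : Type} (l r : V → ℝ) : Prop :=
  ∀ a b, ¬ (Set.Icc (l a) (r a) ⊂ Set.Icc (l b) (r b))

/-- every veto mark is the midpoint of its interval -/
def IsMidRep {V : Type} (l v r : V → ℝ) : Prop := ∀ a, v a = (l a + r a) / 2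

def UVI {V : Type} (G : SimpleGraph V) : Prop := ∃ l v r, IsRep G l v r ∧ IsUnitRep l r

def MUVI {V : Type} (G : SimpleGraph V) : Prop :=
  ∃ l v r, IsRep G l v r ∧ IsMidRep l v r ∧ IsUnitRep l r

def MPVI {V : Type} (G : SimpleGraph V) : Prop :=
  ∃ l v r, IsRep G l v r ∧ IsMidRep l v r ∧ IsProperRep l r

/-! ### upper bounds -/

lemma uvi_four {V : Type} (G : SimpleGraph V) (h : UVI G) : G.Colorable 4 := by
  classical
  obtain ⟨l, v, r, ⟨h1, -, h3⟩, hu⟩ := h
  rcases isEmpty_or_nonempty V with hV | ⟨⟨a0⟩⟩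
  · exact SimpleGraph.Colorable.of_isEmpty 4
  set d := r a0 - l a0 with hd
  have dpos : 0 < d := by have := h1 a0; linarith
  have hr : ∀ a, r a = l a + d := fun a => by have := hu a a0; linarith
  let k : V → ℤ := fun a => ⌊l a / d⌋
  have k1 : ∀ a, (k a : ℝ) * d ≤ l a := fun a => (le_div_iff₀ dpos).1 (Int.floor_le _)
  have k2 : ∀ a, l a < ((k a : ℝ) + 1) * d := fun a => (div_lt_iff₀ dpos).1 (Int.lt_floor_add_one _)
  let c : V → Bool × Bool := fun a => (decide (k a % 2 = 0), decide (v a < ((k a : ℝ) + 1) * d))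
  have key : ∀ a b, v a < l b → l b < r a → r a < v b → c a ≠ c b := by
    intro a b p1 p2 p3 hc
    have e1 : (k a % 2 = 0) ↔ (k b % 2 = 0) := by simpa [c] using congrArg Prod.fst hc
    have e2 : (v a < ((k a : ℝ) + 1) * d) ↔ (v b < ((k b : ℝ) + 1) * d) := by
      simpa [c] using congrArg Prod.snd hc
    have q1 : (k a : ℝ) < k b + 1 := by
      have := k1 a; have := k2 b; have := h1 a
      exact lt_of_mul_lt_mul_right (by linarith) dpos.le
    have q2 : (k b : ℝ) < k a + 2 := by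
      have := k1 b; have := k2 a; have := hr a
      exact lt_of_mul_lt_mul_right (by linarith) dpos.le
    have q1' : k a < k b + 1 := by exact_mod_cast q1
    have q2' : k b < k a + 2 := by exact_mod_cast q2
    have hk : k a = k b := by omega
    rw [hk] at e2
    have := k2 b
    have t := e2.1 (by linarith)
    have := k1 a
    rw [hk] at this
    have := hr a
    linarith
  have C : G.Coloring (Bool × Bool) := SimpleGraph.Coloring.mk c (by
    intro a b hab
    rcases (h3 a b hab.ne).1 hab with ⟨p1, p2, p3⟩ | ⟨p1, p2, p3⟩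
    · exact key a b p1 p2 p3
    · exact (key b a p1 p2 p3).symm)
  simpa using C.colorable

lemma height {V : Type} [Fintype V] (R : V → V → Prop) (m : V → ℕ) (hm : ∀ a b, R a b → m a < m b) :
    ∃ h : V → ℕ, (∀ a b, R a b → h a + 1 ≤ h b) ∧ ∀ b, h b = 0 ∨ ∃ a, R a b ∧ h b = h a + 1 := by
  classical
  have wf : WellFounded R := Subrelation.wf (fun {a b} h => hm a b h) (measure m).wf
  let h : V → ℕ := wf.fix fun b f =>
    (Finset.univ : Finset {a // R a b}).sup fun a => f a.1 a.2 + 1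
  have hh : ∀ b, h b = (Finset.univ : Finset {a // R a b}).sup fun a => h a.1 + 1 :=
    fun b => wf.fix_eq _ b
  refine ⟨h, fun a b hab => ?_, fun b => ?_⟩
  · rw [hh b]
    exact Finset.le_sup (f := fun a : {a // R a b} => h a.1 + 1) (Finset.mem_univ ⟨a, hab⟩)
  · rcases (Finset.univ : Finset {a // R a b}).eq_empty_or_nonempty with he | he
    · left; rw [hh b, he]; rfl
    · right
      obtain ⟨a, -, ha⟩ := Finset.exists_mem_eq_sup _ he fun a : {a // R a b} => h a.1 + 1
      exact ⟨a.1, a.2, (hh b).trans ha⟩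

lemma mpvi_three {V : Type} [Fintype V] (G : SimpleGraph V) (h : MPVI G) : G.Colorable 3 := by
  classical
  obtain ⟨l, v, r, ⟨h1, -, h3⟩, hmid, hp⟩ := h
  have mono : ∀ a b, l a ≤ l b → r a ≤ r b := by
    intro a b hab
    by_contra hc
    push Not at hc
    apply hp b a
    have := h1 a; have := h1 b
    refine ⟨Set.Icc_subset_Icc hab hc.le, fun hs => ?_⟩
    have := (hs ⟨by linarith, le_refl (r a)⟩).2
    linarith
  have monov : ∀ a b, l a ≤ l b → v a ≤ v b := by
    intro a b hab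
    have := mono a b hab
    rw [hmid a, hmid b]; linarith
  let E : V → V → Prop := fun a b => v a < l b ∧ l b < r a ∧ r a < v b
  let R : V → V → Prop := fun a b => ∃ x y, l a ≤ l x ∧ E x y ∧ l y ≤ l b
  have Rl : ∀ a b, R a b → l a < l b := by
    rintro a b ⟨x, y, p1, ⟨p2, -, -⟩, p3⟩
    have := h1 x; linarith
  obtain ⟨h, g1, g2⟩ := height R (fun b => (Finset.univ.filter fun x => l x < l b).card) (by
    intro a b hab
    have := Rl a b hab
    refine Finset.card_lt_card ⟨fun x hx => ?_, fun hs => ?_⟩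
    · simp only [Finset.mem_filter, Finset.mem_univ, true_and] at hx ⊢; linarith
    · have := hs (Finset.mem_filter.2 ⟨Finset.mem_univ a, this⟩)
      simp at this)
  have hmono : ∀ a b, l a ≤ l b → h a ≤ h b := by
    intro a b hab
    rcases g2 a with h0 | ⟨c, ⟨x, y, p1, p2, p3⟩, hc⟩
    · omega
    · have := g1 c b ⟨x, y, p1, p2, p3.trans hab⟩
      omega
  have key : ∀ a b, E a b → h a + 1 ≤ h b ∧ h b ≤ h a + 2 := by
    intro a b hab
    refine ⟨g1 a b ⟨a, b, le_rfl, hab, le_rfl⟩, ?_⟩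
    by_contra hc
    rcases g2 b with h0 | ⟨c, ⟨x2, y2, p1, p2, p3⟩, e1⟩
    · omega
    rcases g2 c with h0 | ⟨d, ⟨x1, y1, q1, q2, q3⟩, e2⟩
    · omega
    have had : l a ≤ l d := by
      by_contra hh
      have := hmono d a (le_of_lt (not_le.1 hh))
      omega
    have t1 := mono a x1 (had.trans q1)
    have t2 := monov y1 x2 (q3.trans p1)
    obtain ⟨-, s1, -⟩ := hab
    obtain ⟨-, -, s2⟩ := q2
    obtain ⟨s3, -, -⟩ := p2
    linarith
  refine ⟨SimpleGraph.Coloring.mk (fun a => (⟨h a % 3, Nat.mod_lt _ (by norm_num)⟩ : Fin 3)) ?_⟩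
  intro a b hab hc
  have hc' : h a % 3 = h b % 3 := congrArg Fin.val hc
  rcases (h3 a b hab.ne).1 hab with p | p
  · have := key a b p; omega
  · have := key b a p; omega

lemma muvi_mpvi {V : Type} (G : SimpleGraph V) (h : MUVI G) : MPVI G := by
  obtain ⟨l, v, r, h1, hm, hu⟩ := h
  refine ⟨l, v, r, h1, hm, fun a b hs => ?_⟩
  have t := h1.1 a
  have p1 := hs.1 (⟨le_refl (l a), by linarith⟩ : l a ∈ Set.Icc (l a) (r a))
  have p2 := hs.1 (⟨by linarith, le_refl (r a)⟩ : r a ∈ Set.Icc (l a) (r a))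
  have := hu a b
  exact hs.2 (Set.Icc_subset_Icc (by linarith [p1.1, p2.2]) (by linarith [p1.1, p2.2]))

/-! ### examples -/

def gr {n : ℕ} (L M : Fin n → ℕ) (d : ℕ) : SimpleGraph (Fin n) where
  Adj a b := a ≠ b ∧ ((M a < L b ∧ L b < L a + d ∧ L a + d < M b) ∨
    (M b < L a ∧ L a < L b + d ∧ L b + d < M a))
  symm := ⟨fun _ _ h => ⟨h.1.symm, h.2.symm⟩⟩
  loopless := ⟨fun _ h => h.1 rfl⟩

lemma gr_rep {n : ℕ} (L M : Fin n → ℕ) (d : ℕ) (h1 : ∀ a, L a < M a ∧ M a < L a + d)
    (h2 : ∀ a b, L a = L b → M a = M b → a = b) :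
    IsRep (gr L M d) (fun a => L a) (fun a => M a) (fun a => (L a : ℝ) + d) := by
  refine ⟨fun a => ⟨by beta_reduce; exact_mod_cast (h1 a).1, by beta_reduce; exact_mod_cast (h1 a).2⟩, fun a b hab => ?_,
    fun a b hab => ?_⟩
  · simp only [Prod.mk.injEq] at hab
    exact h2 a b (by exact_mod_cast hab.1) (by exact_mod_cast hab.2.1)
  · simp only [gr, hab, ne_eq, not_false_eq_true, true_and]
    norm_cast

def ext (q : ℕ) : List (List ℕ) → ℕ → (ℕ → ℕ) → Bool
  | [], _, _ => true
  | N :: r, i, c => (List.range q).any fun k =>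
      N.all (fun j => c j != k) && ext q r (i + 1) (fun j => if j = i then k else c j)

lemma ext_sound (q : ℕ) (f : ℕ → ℕ) (hf : ∀ i, f i < q) : ∀ (nb : List (List ℕ)) (i : ℕ) (c : ℕ → ℕ),
    (∀ j < i, c j = f j) → (∀ t, ∀ j ∈ nb.getD t [], j < i + t ∧ f j ≠ f (i + t)) →
    ext q nb i c = true := by
  intro nb
  induction nb with
  | nil => intros; rfl
  | cons N r ih =>
    intro i c hc h
    simp only [ext, List.any_eq_true, List.mem_range, Bool.and_eq_true, List.all_eq_true, bne_iff_ne]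
    refine ⟨f i, hf i, fun j hj => ?_, ih _ _ (fun j hj => ?_) (fun t j hj => ?_)⟩
    · have := h 0 j (by simpa using hj)
      rw [hc j (by simpa using this.1)]
      simpa using this.2
    · by_cases e : j = i
      · simp [e]
      · simp only [e, if_false]; exact hc j (by omega)
    · have := h (t + 1) j (by simpa using hj)
      rw [show i + 1 + t = i + (t + 1) by omega]
      exact this

lemma not_col {n : ℕ} (G : SimpleGraph (Fin (n + 1))) (q : ℕ) (nb : List (List ℕ))
    (h : ∀ t, ∀ j ∈ nb.getD t [], j < t ∧ G.Adj (Fin.ofNat _ j) (Fin.ofNat _ t))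
    (he : ext q nb 0 (fun _ => 0) = false) : ¬ G.Colorable q := by
  rintro ⟨C⟩
  have := ext_sound q (fun i => (C (Fin.ofNat _ i)).val) (fun i => (C _).2) nb 0 (fun _ => 0)
    (fun j hj => absurd hj (by omega)) (fun t j hj => ⟨by simpa using (h t j hj).1, fun e => by
      simp only [Nat.zero_add] at e
      exact C.valid (h t j hj).2 (Fin.ext e)⟩)
  rw [he] at this
  exact absurd this (by decide)

instance {n : ℕ} (L M : Fin n → ℕ) (d : ℕ) : DecidableRel (gr L M d).Adj :=
  fun _ _ => inferInstanceAs (Decidable (_ ∧ _))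

def L4 (a : Fin 28) : ℕ := [0, 4, 6, 12, 14, 14, 18, 18, 20, 24, 24, 26, 26, 26, 28, 32, 38, 38, 38, 40, 46, 46, 50, 52, 52, 60, 60, 64].getD a.val 0
def M4 (a : Fin 28) : ℕ := [5, 13, 17, 13, 17, 29, 23, 33, 31, 25, 37, 27, 35, 41, 43, 37, 39, 41, 53, 55, 49, 55, 51, 59, 67, 63, 67, 79].getD a.val 0
def nb4 : List (List ℕ) := [[], [], [0], [], [0], [0, 1, 3], [1, 2], [1, 2, 3, 4], [2, 3, 4], [], [3, 4, 6], [], [3, 4, 6], [3, 4, 6, 9], [4, 6, 9, 11], [6, 8], [], [9, 10], [9, 10, 11, 12, 15], [11, 12, 15, 16], [15], [15, 16, 17], [], [16, 17], [16, 17, 20, 22], [20, 21], [20, 21, 22], [22, 23, 25]]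

lemma nb_ok {n : ℕ} (G : SimpleGraph (Fin (n + 1))) (nb : List (List ℕ))
    (h : ∀ t < nb.length, ∀ j ∈ nb.getD t [], j < t ∧ G.Adj (Fin.ofNat _ j) (Fin.ofNat _ t)) :
    ∀ t, ∀ j ∈ nb.getD t [], j < t ∧ G.Adj (Fin.ofNat _ j) (Fin.ofNat _ t) := by
  intro t j hj
  by_cases ht : t < nb.length
  · exact h t ht j hj
  · rw [List.getD_eq_default _ _ (by omega)] at hj
    simp at hj

lemma four : ¬ (gr L4 M4 16).Colorable 3 :=
  not_col _ 3 nb4 (nb_ok _ _ (by decide +kernel)) (by decide +kernel)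

def L3 (a : Fin 5) : ℕ := [0, 6, 9, 12, 18].getD a.val 0
def M3 (a : Fin 5) : ℕ := L3 a + 5

lemma three : ¬ (gr L3 M3 10).Colorable 2 :=
  not_col _ 2 [[], [0], [0], [1], [2, 3]] (nb_ok _ _ (by decide +kernel)) (by decide +kernel)

lemma chi_eq {V : Type} (G : SimpleGraph V) (k : ℕ) (h1 : G.Colorable (k + 1))
    (h2 : ¬ G.Colorable k) : G.chromaticNumber = (k + 1 : ℕ) := by
  refine le_antisymm h1.chromaticNumber_le ?_
  by_contra hc
  push Not at hc
  apply h2
  rw [← SimpleGraph.chromaticNumber_le_iff_colorable]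
  exact Order.le_of_lt_succ (by simpa using hc)

lemma muvi3 : MUVI (gr L3 M3 10) :=
  ⟨_, _, _, gr_rep L3 M3 10 (by decide) (by decide), fun a => by simp [M3]; ring,
    fun a b => by simp⟩

/-- The largest chromatic number of a finite UVI graph is 4, and it is 3 for MUVI and MPVI graphs. -/
theorem result :
    IsGreatest {k : ℕ∞ | ∃ (V : Type) (_ : Fintype V) (G : SimpleGraph V),
      UVI G ∧ G.chromaticNumber = k} 4 ∧
    IsGreatest {k : ℕ∞ | ∃ (V : Type) (_ : Fintype V) (G : SimpleGraph V),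
      MUVI G ∧ G.chromaticNumber = k} 3 ∧
    IsGreatest {k : ℕ∞ | ∃ (V : Type) (_ : Fintype V) (G : SimpleGraph V),
      MPVI G ∧ G.chromaticNumber = k} 3 := by
  have u : UVI (gr L4 M4 16) :=
    ⟨_, _, _, gr_rep L4 M4 16 (by decide +kernel) (by decide +kernel), fun a b => by simp⟩
  have c3 := chi_eq _ 2 (mpvi_three _ (muvi_mpvi _ muvi3)) three
  refine ⟨⟨⟨_, inferInstance, _, u, chi_eq _ 3 (uvi_four _ u) four⟩, ?_⟩,
    ⟨⟨_, inferInstance, _, muvi3, c3⟩, ?_⟩, ⟨⟨_, inferInstance, _, muvi_mpvi _ muvi3, c3⟩, ?_⟩⟩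
  · rintro k ⟨V, _, G, h, rfl⟩
    exact (uvi_four G h).chromaticNumber_le
  · rintro k ⟨V, _, G, h, rfl⟩
    exact (mpvi_three G (muvi_mpvi G h)).chromaticNumber_le
  · rintro k ⟨V, _, G, h, rfl⟩
    exact (mpvi_three G h).chromaticNumber_le

end Pool.Agent.Results.MP_193372_co.Exact
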